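import Pool.Graph.R_pool_sql_team_seeded_63374d34.Results.MP_6374fb_al.HyperabelianKernels
import Pool.Graph.R_seed8.R684.FP.Main

/-!
# Extensions with virtually (free-by-solvable) kernels
-/

set_option autoImplicit false

namespace Pool.Agent.H6.VF

open Pool.Agent.Y110.FJ (ClosedE)
open Pool.Agent.R684.FP (FbC)

section lf

variable {L : Type} [Group L]

/-- a subgroup of index at most `m` contains the kernel of a homomorphism to `Perm (Fin m)` -/
theorem exists_hom (m : ℕ) (H : Subgroup L) (h0 : H.index ≠ 0) (hm : H.index ≤ m) :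
    ∃ φ : L →* Equiv.Perm (Fin m), φ.ker ≤ H := by
  classical
  have : Finite (L ⧸ H) := @Subgroup.finite_quotient_of_finiteIndex _ _ H ⟨h0⟩
  have hc : Nat.card (L ⧸ H) ≤ m := hm
  let e := Finite.equivFin (L ⧸ H)
  let i : (L ⧸ H) ↪ Fin m := e.toEmbedding.trans (Fin.castLEEmb hc)
  let ψ : Equiv.Perm (L ⧸ H) →* Equiv.Perm (Fin m) := Equiv.Perm.viaEmbeddingHom i
  refine ⟨ψ.comp (MulAction.toPermHom L (L ⧸ H)), ?_⟩
  intro g hg
  rw [MonoidHom.mem_ker, MonoidHom.comp_apply] at hg
  have h1 : MulAction.toPermHom L (L ⧸ H) g = 1 := by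
    apply Equiv.Perm.viaEmbeddingHom_injective i
    rw [map_one]
    exact hg
  have h2 : g • (QuotientGroup.mk (1 : L) : L ⧸ H) = QuotientGroup.mk 1 := by
    have := congrArg (fun p : Equiv.Perm (L ⧸ H) => p (QuotientGroup.mk 1)) h1
    simpa using this
  rw [MulAction.Quotient.smul_mk, smul_eq_mul, mul_one, QuotientGroup.eq] at h2
  simpa using h2

/-- in a finitely generated group the intersection of any set of subgroups of index at most `m` has
finite index -/
theorem sInf_index [hL : Group.FG L] (m : ℕ) (S : Set (Subgroup L))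
    (hS : ∀ H ∈ S, H.index ≠ 0 ∧ H.index ≤ m) : (sInf S).index ≠ 0 := by
  classical
  obtain ⟨E, hE⟩ := hL.out
  have hfin : Finite (L →* Equiv.Perm (Fin m)) := by
    refine Finite.of_injective (β := E → Equiv.Perm (Fin m)) (fun φ x => φ x) ?_
    intro φ ψ h
    refine MonoidHom.eq_of_eqOn_dense hE ?_
    intro x hx
    exact congrFun h ⟨x, hx⟩
  have h1 : (⨅ φ : L →* Equiv.Perm (Fin m), φ.ker).FiniteIndex := by
    have : ∀ φ : L →* Equiv.Perm (Fin m), φ.ker.FiniteIndex := fun φ => by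
      exact Subgroup.finiteIndex_ker φ
    exact Subgroup.finiteIndex_iInf this
  have h2 : (⨅ φ : L →* Equiv.Perm (Fin m), φ.ker) ≤ sInf S := by
    refine le_sInf fun H hH => ?_
    obtain ⟨φ, hφ⟩ := exists_hom m H (hS H hH).1 (hS H hH).2
    exact (iInf_le _ φ).trans hφ
  exact (Subgroup.finiteIndex_of_le h2).index_ne_zero

end lf


section main

variable {G : Type} [Group G]

/-- the intersection of the subgroups of `N` of index at most `m` -/
def Bd (N : Subgroup G) (m : ℕ) : Subgroup G :=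
  sInf {H | H ≤ N ∧ H.relIndex N ≠ 0 ∧ H.relIndex N ≤ m}

theorem mem_map_conj {g x : G} {P : Subgroup G} :
    x ∈ P.map (MulAut.conj g).toMonoidHom ↔ g⁻¹ * x * g ∈ P := by
  constructor
  · rintro ⟨y, hy, rfl⟩
    have : g⁻¹ * (g * y * g⁻¹) * g = y := by group
    show g⁻¹ * (g * y * g⁻¹) * g ∈ P
    rw [this]
    exact hy
  · intro h
    exact ⟨g⁻¹ * x * g, h, by show g * (g⁻¹ * x * g) * g⁻¹ = x; group⟩

theorem map_conj_normal (N : Subgroup G) [hN : N.Normal] (g : G) :
    N.map (MulAut.conj g).toMonoidHom = N := by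
  ext x
  rw [mem_map_conj]
  constructor
  · intro h
    have := hN.conj_mem _ h g
    have e : g * (g⁻¹ * x * g) * g⁻¹ = x := by group
    rwa [e] at this
  · intro h
    have := hN.conj_mem _ h g⁻¹
    rwa [inv_inv] at this

theorem relIndex_conj (g : G) (A B : Subgroup G) :
    (A.map (MulAut.conj g).toMonoidHom).relIndex (B.map (MulAut.conj g).toMonoidHom) =
      A.relIndex B :=
  Subgroup.relIndex_map_map_of_injective A B (MulAut.conj g).injective

instance Bd_normal (N : Subgroup G) [hN : N.Normal] (m : ℕ) : (Bd N m).Normal := by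
  refine ⟨fun x hx g => ?_⟩
  rw [Bd, Subgroup.mem_sInf] at hx ⊢
  rintro H ⟨h1, h2, h3⟩
  have h4 : H.map (MulAut.conj g⁻¹).toMonoidHom ≤ N := by
    rw [← map_conj_normal N g⁻¹]
    exact Subgroup.map_mono h1
  have h5 : (H.map (MulAut.conj g⁻¹).toMonoidHom).relIndex N = H.relIndex N := by
    have := relIndex_conj g⁻¹ H N
    rwa [map_conj_normal N g⁻¹] at this
  have h6 := hx (H.map (MulAut.conj g⁻¹).toMonoidHom) ⟨h4, by rw [h5]; exact h2, by rw [h5]; exact h3⟩
  rw [mem_map_conj, inv_inv] at h6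
  exact h6

theorem Bd_le {N M : Subgroup G} (hM : M ≤ N) (h : M.relIndex N ≠ 0) : Bd N (M.relIndex N) ≤ M :=
  sInf_le ⟨hM, h, le_rfl⟩

theorem Bd_lf (N : Subgroup G) (m : ℕ) (E : Set G) (hE : E.Finite) (hEN : E ⊆ N) :
    (Bd N m).relIndex (Subgroup.closure E) ≠ 0 := by
  have hL : Subgroup.closure E ≤ N := (Subgroup.closure_le N).2 hEN
  have hfg : Group.FG ↥(Subgroup.closure E) := by
    have := hE.to_subtype
    exact (Group.fg_iff_subgroup_fg _).2 ⟨hE.toFinset, by simp⟩
  have h1 := sInf_index m {K : Subgroup ↥(Subgroup.closure E) | ∃ H : Subgroup G, H ≤ N ∧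
    H.relIndex N ≠ 0 ∧ H.relIndex N ≤ m ∧ K = H.subgroupOf (Subgroup.closure E)} (by
      rintro K ⟨H, _, h2, h3, rfl⟩
      have h4 : H.relIndex (Subgroup.closure E) ≠ 0 := fun h0 =>
        h2 (Subgroup.relIndex_eq_zero_of_le_right hL h0)
      exact ⟨h4, (Subgroup.relIndex_le_of_le_right hL h2).trans h3⟩)
  intro h0
  apply h1
  have h2 : sInf {K : Subgroup ↥(Subgroup.closure E) | ∃ H : Subgroup G, H ≤ N ∧
      H.relIndex N ≠ 0 ∧ H.relIndex N ≤ m ∧ K = H.subgroupOf (Subgroup.closure E)} ≤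
      (Bd N m).subgroupOf (Subgroup.closure E) := by
    intro x hx
    rw [Subgroup.mem_subgroupOf, Bd, Subgroup.mem_sInf]
    rintro H ⟨a1, a2, a3⟩
    exact (Subgroup.mem_sInf.1 hx) _ ⟨H, a1, a2, a3, rfl⟩
  have h3 : ((Bd N m).subgroupOf (Subgroup.closure E)).index = 0 := h0
  have h4 := Subgroup.index_dvd_of_le h2
  rw [h3] at h4
  exact Nat.eq_zero_of_zero_dvd h4

/-- the derived series of a subgroup, in the ambient group -/
def Ds (K : Subgroup G) : ℕ → Subgroup G
  | 0 => K
  | n + 1 => ⁅Ds K n, Ds K n⁆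

instance Ds_normal (K : Subgroup G) [K.Normal] : ∀ n : ℕ, (Ds K n).Normal
  | 0 => inferInstanceAs K.Normal
  | n + 1 => by
    have := Ds_normal K n
    exact Subgroup.commutator_normal _ _

theorem Ds_mono {K L : Subgroup G} (h : K ≤ L) : ∀ n : ℕ, Ds K n ≤ Ds L n
  | 0 => h
  | n + 1 => Subgroup.commutator_mono (Ds_mono h n) (Ds_mono h n)

theorem Ds_le (K : Subgroup G) : ∀ n : ℕ, Ds K n ≤ K
  | 0 => le_rfl
  | n + 1 => (Subgroup.commutator_mono (Ds_le K n) (Ds_le K n)).trans (by
      rw [Subgroup.commutator_le]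
      intro a ha b hb
      exact mul_mem (mul_mem (mul_mem ha hb) (inv_mem ha)) (inv_mem hb))

theorem Ds_eq (K : Subgroup G) : ∀ n : ℕ, Ds K n = (derivedSeries ↥K n).map K.subtype
  | 0 => by
    rw [derivedSeries_zero, ← MonoidHom.range_eq_map, Subgroup.range_subtype]
    rfl
  | n + 1 => by
    rw [derivedSeries_succ, Subgroup.map_commutator, ← Ds_eq K n]
    rfl

theorem comm_sup {H : Type} [Group H] (M K : Subgroup H) [M.Normal] (h : ⁅K, K⁆ ≤ M) :
    ⁅M ⊔ K, M ⊔ K⁆ ≤ M := by
  rw [Subgroup.commutator_le]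
  intro a ha b hb
  obtain ⟨m₁, hm₁, k₁, hk₁, rfl⟩ := (Subgroup.mem_sup_of_normal_left (s := M)).1 ha
  obtain ⟨m₂, hm₂, k₂, hk₂, rfl⟩ := (Subgroup.mem_sup_of_normal_left (s := M)).1 hb
  rw [← QuotientGroup.ker_mk' M, MonoidHom.mem_ker, map_commutatorElement, map_mul, map_mul,
    (QuotientGroup.eq_one_iff m₁).2 hm₁ |> fun (h : (QuotientGroup.mk' M) m₁ = 1) => h,
    (QuotientGroup.eq_one_iff m₂).2 hm₂ |> fun (h : (QuotientGroup.mk' M) m₂ = 1) => h,
    one_mul, one_mul, ← map_commutatorElement]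
  exact (QuotientGroup.eq_one_iff _).2 (h (Subgroup.commutator_mem_commutator hk₁ hk₂))

open Pool.Agent.Results.MP_6374fb_al.HyperabelianKernels

theorem hyper (N : Subgroup G) [N.Normal] (m d : ℕ) (hle : Bd N m ≤ N) :
    HyperNilpotentOrLocallyFinite (N.map (QuotientGroup.mk' (Ds (Bd N m) d))) := by
  set F := Ds (Bd N m) d with hF
  set π := QuotientGroup.mk' F with hπ
  have hπs : Function.Surjective π := QuotientGroup.mk'_surjective F
  intro M' hM' hlt
  by_cases h0 : (Bd N m).map π ≤ M'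
  · refine ⟨N.map π, hlt, le_rfl, ?_, Or.inr ?_⟩
    · intro u hu a ha
      exact mul_mem (mul_mem hu ha) (inv_mem hu)
    · intro E hE hEN
      obtain ⟨E', hE'N, hE'f, rfl⟩ : ∃ E' : Set G, E' ⊆ N ∧ E'.Finite ∧ π '' E' = E := by
        have h1 : ∀ y ∈ E, ∃ x ∈ N, π x = y := fun y hy => hEN hy
        choose! t ht1 ht2 using h1
        refine ⟨t '' E, ?_, hE.image t, ?_⟩
        · rintro _ ⟨y, hy, rfl⟩
          exact ht1 y hy
        · ext y
          constructor
          · rintro ⟨_, ⟨z, hz, rfl⟩, rfl⟩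
            rw [ht2 z hz]
            exact hz
          · intro hy
            exact ⟨t y, ⟨y, hy, rfl⟩, ht2 y hy⟩
      intro h1
      have h2 := Subgroup.relIndex_eq_zero_of_le_left h0 h1
      rw [← MonoidHom.map_closure, Subgroup.relIndex_map_map, QuotientGroup.ker_mk',
        sup_eq_left.2 (Ds_le (Bd N m) d)] at h2
      have h3 := Subgroup.relIndex_eq_zero_of_le_right
        (sup_le_sup_left (Ds_le (Bd N m) d) (Subgroup.closure E')) h2
      rw [Subgroup.relIndex_sup_right] at h3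
      exact Bd_lf N m E' hE'f hE'N h3
  · have hex : ∃ i, (Ds (Bd N m) i).map π ≤ M' := by
      refine ⟨d, ?_⟩
      have : (Ds (Bd N m) d).map π = ⊥ := by
        rw [Subgroup.map_eq_bot_iff, QuotientGroup.ker_mk']
      rw [this]
      exact bot_le
    classical
    obtain ⟨i, hi, hi'⟩ : ∃ i, ¬ (Ds (Bd N m) i).map π ≤ M' ∧ (Ds (Bd N m) (i + 1)).map π ≤ M' := by
      have h1 : Nat.find hex ≠ 0 := by
        intro h1
        apply h0
        have := Nat.find_spec hex
        rw [h1] at this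
        exact this
      obtain ⟨i, hi⟩ := Nat.exists_eq_succ_of_ne_zero h1
      refine ⟨i, Nat.find_min hex (by omega), ?_⟩
      have := Nat.find_spec hex
      rwa [hi] at this
    have hn1 : ((Ds (Bd N m) i).map π).Normal := Subgroup.Normal.map (Ds_normal _ i) π hπs
    refine ⟨M' ⊔ (Ds (Bd N m) i).map π, ?_, ?_, ?_, Or.inl ⟨1, ?_⟩⟩
    · exact left_lt_sup.2 hi
    · exact sup_le hlt.le (Subgroup.map_mono ((Ds_le _ i).trans hle))
    · intro u _ a ha
      exact (Subgroup.sup_normal M' _).conj_mem a ha u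
    · rw [Subgroup.lowerCentralSeries_succ]
      refine comm_sup M' _ ?_
      rw [← Subgroup.map_commutator]
      exact hi'

/-- **Extensions with virtually (free-by-solvable) kernels.** -/
theorem main {C : ∀ (G : Type) [Group G], Prop} (hC : ClosedE C) (hmet : ContainsMetabelian C)
    (hF : FbC C) (N : Subgroup G) [N.Normal] (hQ : C (G ⧸ N)) (M : Subgroup G) (hMN : M ≤ N)
    (hM : M.relIndex N ≠ 0) (d : ℕ) (hfree : IsFreeGroup ↥(Ds M d)) : C G := by
  let m := M.relIndex N
  have hle : Bd N m ≤ M := Bd_le hMN hM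
  let F := Ds (Bd N m) d
  have hFN : F ≤ N := ((Ds_le _ d).trans hle).trans hMN
  have hFfree : IsFreeGroup ↥F := by
    have h1 : F ≤ Ds M d := Ds_mono hle d
    exact IsFreeGroup.ofMulEquiv (Subgroup.subgroupOfEquivOfLe h1)
  refine Pool.Agent.R684.FP.free_ext hC hF F ?_
  have : (N.map (QuotientGroup.mk' F)).Normal :=
    Subgroup.Normal.map inferInstance _ (QuotientGroup.mk'_surjective F)
  refine result C hC hmet (G ⧸ F) (N.map (QuotientGroup.mk' F)) ?_ (hyper N m d (hle.trans hMN))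
  exact hC.base.of_injective _ _ (QuotientGroup.quotientQuotientEquivQuotient F N hFN).toMonoidHom
    (QuotientGroup.quotientQuotientEquivQuotient F N hFN).injective hQ

end main

end Pool.Agent.H6.VF
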