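import Pool.Agent.H6.VF.Core
import Pool.Graph.R_pool_sql_team_seeded_b0a926ef.R573.TA.Main
import Pool.Graph.R_pool_sql_team_seeded_63374d34.N24.CM.Comm
import Pool.Graph.R_pool_sql_team_seeded_2aa45f1a.Q152.TC.VC

/-!
# Kernels which act on trees with infinite cyclic stabilizers
-/

set_option autoImplicit false

namespace Pool.Agent.H6.VF

open Pool.Agent.Y110.FJ (ClosedE)
open Pool.Agent.R684.FP (FbC)
open scoped commutatorElement

section free

variable {N V : Type} [Group N] [MulAction N V]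

/-- the commutator subgroup of a normal subgroup whose elements centralize subgroups of finite index of
the stabilizers is free -/
theorem tree_free (T : SimpleGraph V) (hT : T.IsTree)
    (hadj : ∀ (g : N) (u v : V), T.Adj u v → T.Adj (g • u) (g • v))
    (hinv : ∀ (g : N) (u v : V), T.Adj u v → ¬ (g • u = v ∧ g • v = u))
    (hcom : ∀ u v : V, T.Adj u v →
      (MulAction.stabilizer N u).relIndex (MulAction.stabilizer N v) ≠ 0)
    (hfin : ∀ (v : V) (F : Subgroup ↥(MulAction.stabilizer N v)), F.Normal → Finite F → F = ⊥)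
    (K : Subgroup N) [K.Normal]
    (hK : ∀ g ∈ K, ∃ v : V,
      (Subgroup.centralizer ({g} : Set N)).relIndex (MulAction.stabilizer N v) ≠ 0) :
    IsFreeGroup ↥⁅K, K⁆ := by
  have hall : ∀ u v : V, (MulAction.stabilizer N u).relIndex (MulAction.stabilizer N v) ≠ 0 :=
    fun u v => Pool.Agent.N24.CM.commensurable hT.1 (fun x => MulAction.stabilizer N x) hcom u v
  have h := Pool.Agent.R573.TA.commutator_free T hT hadj hinv hall hfin K hK
  exact Pool.Agent.H40R2.Zd.free_of_tree (N := ↥⁅K, K⁆) T hT (fun γ u v => hadj γ u v)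
    (fun γ v hv => Subtype.ext (h γ γ.2 v hv)) (fun γ u v => hinv γ u v)

/-- the elements which centralize a nontrivial power of `a` -/
def Zc (a : N) : Subgroup N where
  carrier := {x | ∃ k : ℤ, k ≠ 0 ∧ x * a ^ k * x⁻¹ = a ^ k}
  one_mem' := ⟨1, one_ne_zero, by group⟩
  mul_mem' := by
    rintro x y ⟨k, hk, h⟩ ⟨l, hl, h'⟩
    refine ⟨k * l, mul_ne_zero hk hl, ?_⟩
    have h1 : x * a ^ (k * l) * x⁻¹ = a ^ (k * l) := by
      rw [zpow_mul, ← conj_zpow, h]
    have h2 : y * a ^ (k * l) * y⁻¹ = a ^ (k * l) := by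
      rw [mul_comm k l, zpow_mul, ← conj_zpow, h']
    calc x * y * a ^ (k * l) * (x * y)⁻¹ = x * (y * a ^ (k * l) * y⁻¹) * x⁻¹ := by group
      _ = a ^ (k * l) := by rw [h2, h1]
  inv_mem' := by
    rintro x ⟨k, hk, h⟩
    refine ⟨k, hk, ?_⟩
    nth_rewrite 1 [← h]
    group

/-- if every element conjugates some nontrivial power of `a` to a power of `a` then the commutators
centralize nontrivial powers -/
theorem comm_Zc (a : N) (h : ∀ g : N, ∃ p q : ℤ, p ≠ 0 ∧ q ≠ 0 ∧ g * a ^ p * g⁻¹ = a ^ q) :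
    commutator N ≤ Zc a := by
  rw [commutator_def, Subgroup.commutator_le]
  intro g _ k _
  obtain ⟨p, q, hp, hq, h1⟩ := h g
  obtain ⟨r, s, hr, hs, h2⟩ := h k
  refine ⟨q * s, mul_ne_zero hq hs, ?_⟩
  have a1 : g * a ^ (s * p) * g⁻¹ = a ^ (q * s) := by
    rw [mul_comm s p, zpow_mul, ← conj_zpow, h1, ← zpow_mul]
  have a2 : k * a ^ (r * p) * k⁻¹ = a ^ (s * p) := by
    rw [zpow_mul, ← conj_zpow, h2, ← zpow_mul]
  have a3 : g * a ^ (r * p) * g⁻¹ = a ^ (q * r) := by
    rw [mul_comm r p, zpow_mul, ← conj_zpow, h1, ← zpow_mul]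
  have a4 : k * a ^ (q * r) * k⁻¹ = a ^ (q * s) := by
    rw [mul_comm q r, zpow_mul, ← conj_zpow, h2, ← zpow_mul, mul_comm s q]
  have b1 : a ^ (q * s) = k * g * a ^ (r * p) * (k * g)⁻¹ := by
    calc a ^ (q * s) = k * (g * a ^ (r * p) * g⁻¹) * k⁻¹ := by rw [a3, a4]
      _ = k * g * a ^ (r * p) * (k * g)⁻¹ := by group
  have b2 : a ^ (r * p) = (k * g)⁻¹ * a ^ (q * s) * (k * g) := by
    rw [b1]
    group
  calc ⁅g, k⁆ * a ^ (q * s) * ⁅g, k⁆⁻¹
      = g * (k * ((k * g)⁻¹ * a ^ (q * s) * (k * g)) * k⁻¹) * g⁻¹ := by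
        rw [commutatorElement_def]
        group
    _ = a ^ (q * s) := by rw [← b2, a2, a1]

/-- the second commutator subgroup of a group which acts on a tree with infinite cyclic stabilizers is
free -/
theorem gbs_free (T : SimpleGraph V) (hT : T.IsTree)
    (hadj : ∀ (g : N) (u v : V), T.Adj u v → T.Adj (g • u) (g • v))
    (hinv : ∀ (g : N) (u v : V), T.Adj u v → ¬ (g • u = v ∧ g • v = u))
    (hcyc : ∀ v : V, ∃ a : N, ¬ IsOfFinOrder a ∧ MulAction.stabilizer N v = Subgroup.zpowers a)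
    (hne : ∀ u v : V, T.Adj u v → ∃ z : N, z ≠ 1 ∧ z • u = u ∧ z • v = v) :
    IsFreeGroup ↥⁅commutator N, commutator N⁆ := by
  have hcom : ∀ u v : V, T.Adj u v →
      (MulAction.stabilizer N u).relIndex (MulAction.stabilizer N v) ≠ 0 := by
    intro u v huv
    obtain ⟨a, ha, hav⟩ := hcyc v
    obtain ⟨z, hz1, hzu, hzv⟩ := hne u v huv
    have h1 : z ∈ Subgroup.zpowers a := by
      rw [← hav]
      exact hzv
    obtain ⟨k, rfl⟩ := h1
    have hk : k ≠ 0 := by
      rintro rfl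
      exact hz1 (zpow_zero a)
    have h2 := Pool.Agent.Q152.TC.relIndex_zpowers a hk
    rw [hav]
    intro h0
    apply h2
    refine Subgroup.relIndex_eq_zero_of_le_left ?_ h0
    rw [Subgroup.zpowers_le]
    exact hzu
  refine tree_free T hT hadj hinv hcom ?_ (commutator N) ?_
  · intro v F _ hF
    obtain ⟨a, ha, hav⟩ := hcyc v
    rw [eq_bot_iff]
    intro x hx
    rw [Subgroup.mem_bot]
    have h1 : IsOfFinOrder (⟨x, hx⟩ : F) := isOfFinOrder_of_finite _
    have h2 : IsOfFinOrder (x : N) := by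
      exact MonoidHom.isOfFinOrder (((MulAction.stabilizer N v).subtype).comp F.subtype) h1
    have h3 : (x : N) ∈ Subgroup.zpowers a := by
      rw [← hav]
      exact x.2
    obtain ⟨k, hk⟩ := h3
    have hk' : a ^ k = (x : N) := hk
    by_cases hk0 : k = 0
    · rw [hk0, zpow_zero] at hk'
      exact Subtype.ext hk'.symm
    · rw [← hk'] at h2
      exact absurd h2 (Pool.Agent.Q152.TC.zpow_inf ha hk0)
  · intro g hg
    obtain ⟨v⟩ := hT.1.nonempty
    refine ⟨v, ?_⟩
    obtain ⟨a, ha, hav⟩ := hcyc v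
    have hall : ∀ u w : V, (MulAction.stabilizer N u).relIndex (MulAction.stabilizer N w) ≠ 0 :=
      fun u w => Pool.Agent.N24.CM.commensurable hT.1 (fun x => MulAction.stabilizer N x) hcom u w
    have h1 : ∀ x : N, ∃ p q : ℤ, p ≠ 0 ∧ q ≠ 0 ∧ x * a ^ p * x⁻¹ = a ^ q := by
      intro x
      have hav' : a ∈ MulAction.stabilizer N v := by
        rw [hav]
        exact Subgroup.mem_zpowers a
      obtain ⟨m, hm, h2⟩ := Pool.Agent.Q152.TC.pow_mem_of_relIndex (hall (x • v) v) hav'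
      have h3 : x⁻¹ * a ^ m * x ∈ MulAction.stabilizer N v := by
        rw [MulAction.mem_stabilizer_iff, mul_smul, mul_smul]
        rw [MulAction.mem_stabilizer_iff] at h2
        rw [h2, inv_smul_smul]
      rw [hav] at h3
      obtain ⟨j, hj⟩ := h3
      have hj' : a ^ j = x⁻¹ * a ^ m * x := hj
      refine ⟨j, m, ?_, by exact_mod_cast hm.ne', ?_⟩
      · rintro rfl
        rw [zpow_zero] at hj'
        have h4 : a ^ m = 1 := by
          calc a ^ m = x * (x⁻¹ * a ^ m * x) * x⁻¹ := by group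
            _ = 1 := by rw [← hj']; group
        exact ha (isOfFinOrder_iff_pow_eq_one.2 ⟨m, hm, h4⟩)
      · rw [hj', zpow_natCast]
        group
    obtain ⟨k, hk, h2⟩ := comm_Zc a h1 hg
    have h3 := Pool.Agent.Q152.TC.relIndex_zpowers a hk
    rw [hav]
    intro h0
    apply h3
    refine Subgroup.relIndex_eq_zero_of_le_left ?_ h0
    rw [Subgroup.zpowers_le, Subgroup.mem_centralizer_singleton_iff]
    calc a ^ k * g = (g * a ^ k * g⁻¹) * g := by rw [h2]
      _ = g * a ^ k := by group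

end free

section ext

variable {G : Type} [Group G]

theorem Ds_map {H : Type} [Group H] (f : H →* G) (K : Subgroup H) : ∀ n : ℕ,
    (Ds K n).map f = Ds (K.map f) n
  | 0 => rfl
  | n + 1 => by
    show (⁅Ds K n, Ds K n⁆).map f = ⁅Ds (K.map f) n, Ds (K.map f) n⁆
    rw [Subgroup.map_commutator, Ds_map f K n]

theorem gbs {C : ∀ (G : Type) [Group G], Prop} (hC : ClosedE C)
    (hmet : Pool.Agent.Results.MP_6374fb_al.HyperabelianKernels.ContainsMetabelian C)
    (hF : FbC C) (N : Subgroup G) [N.Normal] (hQ : C (G ⧸ N))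
    {V : Type} [MulAction ↥N V] (T : SimpleGraph V) (hT : T.IsTree)
    (hadj : ∀ (g : ↥N) (u v : V), T.Adj u v → T.Adj (g • u) (g • v))
    (hinv : ∀ (g : ↥N) (u v : V), T.Adj u v → ¬ (g • u = v ∧ g • v = u))
    (hcyc : ∀ v : V, ∃ a : ↥N, ¬ IsOfFinOrder a ∧ MulAction.stabilizer ↥N v = Subgroup.zpowers a)
    (hne : ∀ u v : V, T.Adj u v → ∃ z : ↥N, z ≠ 1 ∧ z • u = u ∧ z • v = v) : C G := by
  have h1 := gbs_free T hT hadj hinv hcyc hne
  refine main hC hmet hF N hQ N le_rfl (by rw [Subgroup.relIndex_self]; exact one_ne_zero) 2 ?_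
  have h2 : (Ds (⊤ : Subgroup ↥N) 2).map N.subtype = Ds N 2 := by
    rw [Ds_map, ← MonoidHom.range_eq_map, Subgroup.range_subtype]
  have h3 : Ds (⊤ : Subgroup ↥N) 2 = ⁅commutator ↥N, commutator ↥N⁆ := rfl
  rw [← h2, h3]
  exact IsFreeGroup.ofMulEquiv
    (⁅commutator ↥N, commutator ↥N⁆.equivMapOfInjective N.subtype N.subtype_injective)

end ext

end Pool.Agent.H6.VF
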